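import Pool.Agent.R503.SIC.Exc2

/-!
# Weyl–Heisenberg overlaps of sums of vectors
-/

set_option autoImplicit false

open Finset Complex
open scoped ComplexConjugate

namespace Pool.Agent.Zk59.Sic

open Pool.Agent.R503.SIC

variable {d : ℕ} [NeZero d]

/-- `⟨u, X ^ a Z ^ b v⟩` -/
noncomputable def ov2 (u v : ZMod d → ℂ) (a b : ZMod d) : ℂ :=
  ∑ j, conj (u (j + a)) * (e (b * j) * v j)

theorem ov2_self (u : ZMod d → ℂ) (a b : ZMod d) : ov2 u u a b = ov u a b := rfl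

theorem ov2_add_left (u u' v : ZMod d → ℂ) (a b : ZMod d) :
    ov2 (fun j => u j + u' j) v a b = ov2 u v a b + ov2 u' v a b := by
  unfold ov2
  rw [← Finset.sum_add_distrib]
  exact Finset.sum_congr rfl fun j _ => by rw [map_add]; ring

theorem ov2_add_right (u v v' : ZMod d → ℂ) (a b : ZMod d) :
    ov2 u (fun j => v j + v' j) a b = ov2 u v a b + ov2 u v' a b := by
  unfold ov2
  rw [← Finset.sum_add_distrib]
  exact Finset.sum_congr rfl fun j _ => by ring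

theorem ov2_smul_left (c : ℝ) (u v : ZMod d → ℂ) (a b : ZMod d) :
    ov2 (fun j => (c : ℂ) * u j) v a b = c * ov2 u v a b := by
  unfold ov2
  rw [Finset.mul_sum]
  exact Finset.sum_congr rfl fun j _ => by rw [map_mul, Complex.conj_ofReal]; ring

theorem ov2_smul_right (c : ℝ) (u v : ZMod d → ℂ) (a b : ZMod d) :
    ov2 u (fun j => (c : ℂ) * v j) a b = c * ov2 u v a b := by
  unfold ov2
  rw [Finset.mul_sum]
  exact Finset.sum_congr rfl fun j _ => by ring

/-- the first basis vector -/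
def dl (j : ZMod d) : ℂ := if j = 0 then 1 else 0

/-- the constant unit vector -/
noncomputable def ct (_ : ZMod d) : ℂ := 1 / (Real.sqrt d : ℂ)

theorem ov2_dl_right (u : ZMod d → ℂ) (a b : ZMod d) : ov2 u dl a b = conj (u a) := by
  unfold ov2 dl
  rw [Finset.sum_eq_single 0]
  · simp [e_zero]
  · intro j _ hj
    simp [hj]
  · simp

theorem ov2_dl_left (v : ZMod d → ℂ) (a b : ZMod d) :
    ov2 dl v a b = e (b * (-a)) * v (-a) := by
  unfold ov2 dl
  rw [Finset.sum_eq_single (-a)]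
  · simp
  · intro j _ hj
    have : j + a ≠ 0 := fun h => hj (eq_neg_of_add_eq_zero_left h)
    simp [this]
  · simp

theorem ov2_dl_dl (a b : ZMod d) : ov2 dl dl a b = if a = 0 then 1 else 0 := by
  rw [ov2_dl_right]
  unfold dl
  split_ifs <;> simp

theorem sqrt_pos' : (0 : ℝ) < Real.sqrt d := by
  have hd : (0 : ℝ) < d := by exact_mod_cast Nat.pos_of_ne_zero (NeZero.ne d)
  exact Real.sqrt_pos.2 hd

theorem norm_ct (j : ZMod d) : ‖ct j‖ = 1 / Real.sqrt d := by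
  unfold ct
  rw [norm_div, norm_one, Complex.norm_real, Real.norm_eq_abs, abs_of_pos sqrt_pos']

theorem ov2_ct_left (v : ZMod d → ℂ) (a b : ZMod d) :
    ov2 ct v a b = 1 / (Real.sqrt d : ℂ) * ∑ j, e (b * j) * v j := by
  unfold ov2 ct
  rw [Finset.mul_sum]
  exact Finset.sum_congr rfl fun j _ => by rw [map_div₀, map_one, Complex.conj_ofReal]

theorem ov2_ct_right (u : ZMod d → ℂ) (a b : ZMod d) :
    ov2 u ct a b = 1 / (Real.sqrt d : ℂ) * ∑ j, conj (u (j + a)) * e (b * j) := by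
  unfold ov2 ct
  rw [Finset.mul_sum]
  exact Finset.sum_congr rfl fun j _ => by ring

theorem ov2_ct_ct (a b : ZMod d) : ov2 ct ct a b = if b = 0 then 1 else 0 := by
  rw [ov2_ct_left]
  have h1 : ∑ j : ZMod d, e (b * j) * ct j = 1 / (Real.sqrt d : ℂ) * ∑ j : ZMod d, e (j * b) := by
    rw [Finset.mul_sum]
    exact Finset.sum_congr rfl fun j _ => by unfold ct; rw [mul_comm b j]; ring
  rw [h1, sum_e]
  have h2 := sqrt_sq (d := d)
  have h3 := sqrt_ne (d := d)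
  split_ifs
  · field_simp
    rw [sq, h2]
  · simp

/-- from nearly equal overlaps of a vector that is nearly a unit vector to those of a unit vector -/
theorem final_step (ψ : ZMod d → ℂ) (K β : ℝ) (hK : 0 ≤ K) (hβ0 : 0 ≤ β) (hβ1 : β ≤ 1)
    (hβ : 1 / (d : ℝ) ≤ β) (hn1 : 1 ≤ ∑ j, ‖ψ j‖ ^ 2) (hn : ∑ j, ‖ψ j‖ ^ 2 ≤ 1 + K * β)
    (h : ∀ a b : ZMod d, (a, b) ≠ (0, 0) → |Real.sqrt d * ‖ov ψ a b‖ - 1| ≤ K * β) :
    ∃ φ : ZMod d → ℂ, ∑ j, ‖φ j‖ ^ 2 = 1 ∧ ∀ a b : ZMod d, (a, b) ≠ (0, 0) →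
      |((d : ℝ) + 1) * ‖ov φ a b‖ ^ 2 - 1| ≤ (1 + 4 * K + 2 * K ^ 2) * β := by
  have hd : (0 : ℝ) < d := by exact_mod_cast Nat.pos_of_ne_zero (NeZero.ne d)
  set n : ℝ := ∑ j, ‖ψ j‖ ^ 2 with hnn
  have hn0 : 0 < n := by linarith
  have hsn : 0 < Real.sqrt n := Real.sqrt_pos.2 hn0
  have hsq : Real.sqrt n ^ 2 = n := Real.sq_sqrt hn0.le
  refine ⟨fun j => ((1 / Real.sqrt n : ℝ) : ℂ) * ψ j, ?_, ?_⟩
  · have h1 : ∀ j, ‖((1 / Real.sqrt n : ℝ) : ℂ) * ψ j‖ ^ 2 = 1 / n * ‖ψ j‖ ^ 2 := by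
      intro j
      rw [norm_mul, mul_pow, Complex.norm_real, Real.norm_eq_abs, sq_abs, div_pow, hsq, one_pow]
    rw [Finset.sum_congr rfl fun j _ => h1 j, ← Finset.mul_sum, ← hnn]
    field_simp
  · intro a b hab
    have h1 := h a b hab
    rw [← ov2_self, ov2_smul_left, ov2_smul_right, ov2_self, norm_mul, norm_mul,
      Complex.norm_real, Real.norm_eq_abs, abs_of_pos (show (0 : ℝ) < 1 / Real.sqrt n by positivity)]
    set x : ℝ := Real.sqrt d * ‖ov ψ a b‖ with hx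
    have hx0 : 0 ≤ x := by positivity
    have hsd : Real.sqrt d ^ 2 = d := Real.sq_sqrt hd.le
    have h2 : ((d : ℝ) + 1) * (1 / Real.sqrt n * (1 / Real.sqrt n * ‖ov ψ a b‖)) ^ 2 =
        (1 + 1 / d) * x ^ 2 / n ^ 2 := by
      have h3 : x ^ 2 = d * ‖ov ψ a b‖ ^ 2 := by rw [hx, mul_pow, hsd]
      have h4 : n ^ 2 = Real.sqrt n ^ 4 := by
        rw [show (4 : ℕ) = 2 * 2 from rfl, pow_mul, hsq]
      rw [h3, h4]
      field_simp
    rw [h2]
    obtain ⟨hl, hu⟩ := abs_le.1 h1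
    have hKβ : 0 ≤ K * β := by positivity
    have hn2 : 1 ≤ n ^ 2 := by nlinarith
    rw [abs_le]
    constructor
    · -- lower bound
      by_cases hc : 1 - 4 * (K * β) ≤ 0
      · have h5 : 0 ≤ (1 + 1 / d) * x ^ 2 / n ^ 2 := by positivity
        nlinarith [mul_nonneg (sq_nonneg K) hβ0, hβ0]
      · push Not at hc
        have h5 : (1 - K * β) ^ 2 ≤ x ^ 2 := by
          apply pow_le_pow_left₀ (by linarith) (by linarith)
        have h6 : n ^ 2 ≤ (1 + K * β) ^ 2 := pow_le_pow_left₀ hn0.le hn 2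
        have h7 : 1 - 4 * (K * β) ≤ (1 + 1 / d) * x ^ 2 / n ^ 2 := by
          rw [le_div_iff₀ (by positivity)]
          have h8 : (1 - 4 * (K * β)) * n ^ 2 ≤ (1 - 4 * (K * β)) * (1 + K * β) ^ 2 :=
            mul_le_mul_of_nonneg_left h6 hc.le
          have h9 : (1 - 4 * (K * β)) * (1 + K * β) ^ 2 ≤ (1 - K * β) ^ 2 := by
            nlinarith [mul_nonneg hKβ hKβ, mul_nonneg (mul_nonneg hKβ hKβ) hKβ]
          have h10 : x ^ 2 ≤ (1 + 1 / d) * x ^ 2 := by
            have : 0 ≤ 1 / (d : ℝ) * x ^ 2 := by positivity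
            linarith
          linarith
        nlinarith [mul_nonneg (sq_nonneg K) hβ0, hβ0]
    · -- upper bound
      have h5 : x ^ 2 ≤ (1 + K * β) ^ 2 := pow_le_pow_left₀ hx0 (by linarith) 2
      have h6 : (1 + 1 / d) * x ^ 2 / n ^ 2 ≤ (1 + 1 / d) * x ^ 2 :=
        div_le_self (by positivity) hn2
      have h7 : (1 + 1 / d) * x ^ 2 ≤ (1 + β) * (1 + K * β) ^ 2 :=
        mul_le_mul (by linarith) h5 (by positivity) (by linarith)
      have h8 : (1 + K * β) ^ 2 ≤ 1 + (2 * K + K ^ 2) * β := by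
        have : β ^ 2 ≤ β := by nlinarith
        nlinarith [mul_le_mul_of_nonneg_left this (sq_nonneg K)]
      have h9 : (1 + β) * (1 + K * β) ^ 2 ≤ (1 + β) * (1 + (2 * K + K ^ 2) * β) :=
        mul_le_mul_of_nonneg_left h8 (by linarith)
      have h10 : (2 * K + K ^ 2) * β * β ≤ (2 * K + K ^ 2) * β := by
        have : 0 ≤ (2 * K + K ^ 2) * β := by positivity
        nlinarith
      nlinarith

end Pool.Agent.Zk59.Sic
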