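import Pool.Agent.Zk59.SicA

/-!
# Asymptotic Weyl–Heisenberg SICs in prime dimensions
-/

set_option autoImplicit false

open Finset Complex
open scoped ComplexConjugate

namespace Pool.Agent.Zk59.Sic

open Pool.Agent.R503.SIC

variable {d : ℕ} [NeZero d]

/-- the weight `d ^ (- 1 / 4)` -/
noncomputable def bt (d : ℕ) : ℝ := 1 / Real.sqrt (Real.sqrt d)

theorem bt_pos : 0 < bt d := by
  unfold bt
  have := sqrt_pos' (d := d)
  positivity

omit [NeZero d] in
theorem bt_sq : bt d ^ 2 = 1 / Real.sqrt d := by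
  unfold bt
  rw [div_pow, one_pow, Real.sq_sqrt (Real.sqrt_nonneg _)]

theorem one_le_sqrt : 1 ≤ Real.sqrt d := by
  rw [Real.one_le_sqrt]
  exact_mod_cast Nat.one_le_iff_ne_zero.2 (NeZero.ne d)

theorem bt_le_one : bt d ≤ 1 := by
  unfold bt
  have h1 : 1 ≤ Real.sqrt (Real.sqrt d) := by
    rw [Real.one_le_sqrt]
    exact one_le_sqrt
  exact div_le_one_of_le₀ h1 (by positivity)

theorem inv_le_bt : 1 / (d : ℝ) ≤ bt d := by
  have h1 : 1 / (d : ℝ) = (bt d ^ 2) ^ 2 := by
    rw [bt_sq, div_pow, one_pow, Real.sq_sqrt (by positivity)]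
  rw [h1]
  have h2 := bt_pos (d := d)
  have h3 := bt_le_one (d := d)
  have h4 : bt d ^ 2 ≤ bt d := by nlinarith
  nlinarith [sq_nonneg (bt d)]

theorem ov_zero_zero (ψ : ZMod d → ℂ) : ov ψ 0 0 = ((∑ j, ‖ψ j‖ ^ 2 : ℝ) : ℂ) := by
  unfold ov
  rw [Complex.ofReal_sum]
  refine Finset.sum_congr rfl fun j _ => ?_
  rw [add_zero, zero_mul, e_zero, one_mul, conj_mul_self']

theorem norm_alltop (j : ZMod d) : ‖alltop d j‖ = 1 / Real.sqrt d := by
  unfold alltop
  rw [norm_div, norm_e, Complex.norm_real, Real.norm_eq_abs, abs_of_pos sqrt_pos']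

theorem alltop_zero : alltop d 0 = ((1 / Real.sqrt d : ℝ) : ℂ) := by
  unfold alltop
  have : (0 : ZMod d) ^ 3 = 0 := by ring
  rw [this, e_zero]
  push_cast
  rfl

/-- perturbed Alltop vector -/
noncomputable def pa (d : ℕ) [NeZero d] (j : ZMod d) : ℂ := alltop d j + ((bt d : ℝ) : ℂ) * dl j

theorem pa_ov (a b : ZMod d) : ov (pa d) a b = ov (alltop d) a b +
    bt d * (conj (alltop d a) + e (b * (-a)) * alltop d (-a)) +
      (bt d : ℂ) ^ 2 * (if a = 0 then 1 else 0) := by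
  rw [← ov2_self]
  unfold pa
  rw [ov2_add_left, ov2_add_right, ov2_add_right, ov2_smul_left, ov2_smul_left, ov2_smul_right,
    ov2_smul_right, ov2_dl_dl, ov2_dl_left, ov2_dl_right, ov2_self]
  ring

theorem prime_case (hp : d.Prime) (hp5 : 5 ≤ d) :
    ∃ φ : ZMod d → ℂ, ∑ j, ‖φ j‖ ^ 2 = 1 ∧ ∀ a b : ZMod d, (a, b) ≠ (0, 0) →
      |((d : ℝ) + 1) * ‖ov φ a b‖ ^ 2 - 1| ≤ 31 * bt d := by
  have hd : (0 : ℝ) < d := by exact_mod_cast hp.pos
  have hs := sqrt_pos' (d := d)
  have hs1 := one_le_sqrt (d := d)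
  have hb0 := bt_pos (d := d)
  have hb1 := bt_le_one (d := d)
  have hb2 := bt_sq (d := d)
  have hnorm : ∑ j, ‖pa d j‖ ^ 2 = 1 + bt d ^ 2 + 2 * bt d * (1 / Real.sqrt d) := by
    have h1 := ov_zero_zero (pa d)
    rw [pa_ov, ov_zero_zero, alltop_unit, mul_neg, mul_zero, neg_zero, e_zero, alltop_zero,
      Complex.conj_ofReal, if_pos rfl] at h1
    have h2 : ((1 + bt d ^ 2 + 2 * bt d * (1 / Real.sqrt d) : ℝ) : ℂ) =
        ((∑ j, ‖pa d j‖ ^ 2 : ℝ) : ℂ) := by
      rw [← h1]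
      push_cast
      ring
    exact_mod_cast h2.symm
  have hcr : ∀ a b : ZMod d, ‖(bt d : ℂ) * (conj (alltop d a) + e (b * (-a)) * alltop d (-a))‖ ≤
      2 * bt d / Real.sqrt d := by
    intro a b
    rw [norm_mul, Complex.norm_real, Real.norm_eq_abs, abs_of_pos hb0]
    have h1 : ‖conj (alltop d a) + e (b * (-a)) * alltop d (-a)‖ ≤
        1 / Real.sqrt d + 1 / Real.sqrt d := by
      refine (norm_add_le _ _).trans ?_
      rw [norm_mul, norm_e, one_mul, norm_conj', norm_alltop, norm_alltop]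
    calc bt d * ‖conj (alltop d a) + e (b * (-a)) * alltop d (-a)‖
        ≤ bt d * (1 / Real.sqrt d + 1 / Real.sqrt d) := mul_le_mul_of_nonneg_left h1 hb0.le
      _ = _ := by ring
  have key : ∀ (a b : ZMod d) (z : ℂ), ‖z‖ = 1 / Real.sqrt d →
      ov (pa d) a b = z + bt d * (conj (alltop d a) + e (b * (-a)) * alltop d (-a)) →
      |Real.sqrt d * ‖ov (pa d) a b‖ - 1| ≤ 3 * bt d := by
    intro a b z hz ho
    have h1 : |‖ov (pa d) a b‖ - ‖z‖| ≤ 2 * bt d / Real.sqrt d := by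
      refine (abs_norm_sub_norm_le _ _).trans ?_
      rw [ho, add_sub_cancel_left]
      exact hcr a b
    rw [hz] at h1
    have h2 : Real.sqrt d * ‖ov (pa d) a b‖ - 1 =
        Real.sqrt d * (‖ov (pa d) a b‖ - 1 / Real.sqrt d) := by
      field_simp
    rw [h2, abs_mul, abs_of_pos hs]
    calc Real.sqrt d * |‖ov (pa d) a b‖ - 1 / Real.sqrt d|
        ≤ Real.sqrt d * (2 * bt d / Real.sqrt d) := mul_le_mul_of_nonneg_left h1 hs.le
      _ = 2 * bt d := by field_simp
      _ ≤ 3 * bt d := by linarith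
  have := final_step (pa d) 3 (bt d) (by norm_num) hb0.le hb1 inv_le_bt (by
      rw [hnorm]
      have : 0 ≤ 2 * bt d * (1 / Real.sqrt d) := by positivity
      nlinarith [sq_nonneg (bt d)]) (by
      rw [hnorm]
      have h1 : bt d ^ 2 ≤ bt d := by nlinarith
      have h2 : 1 / Real.sqrt d ≤ 1 := div_le_one_of_le₀ hs1 hs.le
      nlinarith) (by
      intro a b hab
      by_cases ha : a = 0
      · refine key a b ((bt d : ℂ) ^ 2) ?_ ?_
        · rw [norm_pow, Complex.norm_real, Real.norm_eq_abs, sq_abs, hb2]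
        · have h0 : ov (alltop d) a b = 0 := by
            have h1 := alltop_g hp hp5 (a, b) (by simpa using hab)
            rw [if_pos ha] at h1
            unfold g at h1
            simpa using h1
          rw [pa_ov, h0, if_pos ha]
          ring
      · refine key a b (ov (alltop d) a b) ?_ ?_
        · have h1 := alltop_g hp hp5 (a, b) (by simpa using hab)
          rw [if_neg ha] at h1
          unfold g at h1
          rw [← Real.sqrt_sq (norm_nonneg (ov (alltop d) a b)), h1, Real.sqrt_div (by norm_num),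
            Real.sqrt_one]
        · rw [pa_ov, if_neg ha]
          ring)
  obtain ⟨φ, h1, h2⟩ := this
  refine ⟨φ, h1, fun a b hab => (h2 a b hab).trans ?_⟩
  norm_num

end Pool.Agent.Zk59.Sic
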