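import Pool.Agent.Zk59.SicB

/-!
# Asymptotic Weyl–Heisenberg SICs in dimensions `q - 1`
-/

set_option autoImplicit false

open Finset Complex
open scoped ComplexConjugate

namespace Pool.Agent.Zk59.Sic

open Pool.Agent.R503.SIC

section field

variable {d : ℕ} [NeZero d] {K : Type} [Field K] [Fintype K] [DecidableEq K]
  (E : ZMod d → Kˣ) (ψ : AddChar K ℂ)

/-- mixed sums -/
noncomputable def S (c : K) (b : ZMod d) : ℂ := ∑ j, ψ (c * (E j : K)) * e (b * j)

variable {E ψ}

omit [DecidableEq K] in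
theorem norm_psi (x : K) : ‖ψ x‖ = 1 := AddChar.norm_apply ψ x

omit [DecidableEq K] in
theorem conj_psi (x : K) : conj (ψ x) = ψ (-x) := (AddChar.map_neg_eq_conj ψ x).symm

theorem sum_units (hE : Function.Bijective E) (hψ : ψ.IsPrimitive) {t : K} (ht : t ≠ 0) :
    ∑ j, ψ (t * (E j : K)) = -1 := by
  have h1 := AddChar.sum_mulShift t hψ
  rw [if_neg ht] at h1
  have h2 : ∑ x : K, ψ (x * t) = ψ (0 * t) + ∑ u : Kˣ, ψ ((u : K) * t) := by
    rw [← Finset.add_sum_erase Finset.univ _ (Finset.mem_univ (0 : K))]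
    congr 1
    symm
    refine Finset.sum_bij (fun (u : Kˣ) _ => (u : K)) ?_ ?_ ?_ ?_
    · intro u _
      simp
    · intro u _ v _ h
      exact Units.ext h
    · intro x hx
      exact ⟨Units.mk0 x (by simpa using hx), Finset.mem_univ _, rfl⟩
    · intro u _
      rfl
  rw [h2, zero_mul, AddChar.map_zero_eq_one] at h1
  have h3 : ∑ j, ψ (t * (E j : K)) = ∑ u : Kˣ, ψ ((u : K) * t) := by
    refine Function.Bijective.sum_comp hE (fun u : Kˣ => ψ ((u : K) * t)) |>.symm ▸ ?_
    exact Finset.sum_congr rfl fun j _ => by rw [mul_comm]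
  rw [h3]
  linear_combination h1

theorem S_zero (hE : Function.Bijective E) (hψ : ψ.IsPrimitive) {c : K} (hc : c ≠ 0) :
    S E ψ c 0 = -1 := by
  rw [← sum_units hE hψ hc]
  unfold S
  exact Finset.sum_congr rfl fun j _ => by rw [zero_mul, e_zero, mul_one]

theorem S_sq (hE : Function.Bijective E) (hadd : ∀ x y, E (x + y) = E x * E y)
    (hψ : ψ.IsPrimitive) {c : K} (hc : c ≠ 0) {b : ZMod d} (hb : b ≠ 0) :
    ‖S E ψ c b‖ ^ 2 = d + 1 := by
  have hE0 : E 0 = 1 := by
    have := hadd 0 0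
    rw [add_zero] at this
    exact mul_eq_left.1 this.symm
  have h1 : ((‖S E ψ c b‖ ^ 2 : ℝ) : ℂ) = (d : ℂ) + 1 := by
    rw [← conj_mul_self']
    unfold S
    rw [map_sum, Finset.sum_mul]
    have h3 : ∀ k : ZMod d, conj (ψ (c * (E k : K)) * e (b * k)) *
        ∑ j : ZMod d, ψ (c * (E j : K)) * e (b * j) =
        ∑ m : ZMod d, ψ ((c * ((E m : K) - 1)) * (E k : K)) * e (b * m) := by
      intro k
      rw [Finset.mul_sum]
      refine Fintype.sum_equiv (Equiv.subRight k) _ _ fun j => ?_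
      simp only [Equiv.subRight_apply]
      have h4 : E j = E (j - k) * E k := by rw [← hadd, sub_add_cancel]
      rw [map_mul, conj_psi, conj_e, h4, Units.val_mul]
      have h5 : ψ (-(c * (E k : K))) * ψ (c * ((E (j - k) : K) * (E k : K))) =
          ψ ((c * ((E (j - k) : K) - 1)) * (E k : K)) := by
        rw [← AddChar.map_add_eq_mul]
        congr 1
        ring
      have h6 : e (-(b * k)) * e (b * j) = e (b * (j - k)) := by
        rw [← e_add]
        congr 1
        ring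
      rw [← h5, ← h6]
      ring
    rw [Finset.sum_congr rfl fun k _ => h3 k, Finset.sum_comm]
    have h4 : ∀ m : ZMod d, ∑ k : ZMod d, ψ ((c * ((E m : K) - 1)) * (E k : K)) * e (b * m) =
        (if m = 0 then (d : ℂ) + 1 else 0) - e (m * b) := by
      intro m
      rw [← Finset.sum_mul]
      by_cases hm : m = 0
      · rw [if_pos hm, hm, hE0]
        simp [e_zero]
      · have h5 : c * ((E m : K) - 1) ≠ 0 := by
          refine mul_ne_zero hc fun h => hm (hE.1 ?_)
          rw [hE0]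
          exact Units.ext (by simpa using sub_eq_zero.1 h)
        rw [sum_units hE hψ h5, if_neg hm, mul_comm m b]
        ring
    rw [Finset.sum_congr rfl fun m _ => h4 m, Finset.sum_sub_distrib, sum_e, if_neg hb]
    simp
  exact_mod_cast h1

theorem norm_S (hE : Function.Bijective E) (hadd : ∀ x y, E (x + y) = E x * E y)
    (hψ : ψ.IsPrimitive) {c : K} (hc : c ≠ 0) (b : ZMod d) :
    ‖S E ψ c b‖ ≤ Real.sqrt (d + 1) := by
  by_cases hb : b = 0
  · rw [hb, S_zero hE hψ hc, norm_neg, norm_one, Real.one_le_sqrt]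
    have : (0 : ℝ) ≤ d := by positivity
    linarith
  · rw [← S_sq hE hadd hψ hc hb, Real.sqrt_sq (norm_nonneg _)]

variable (E ψ)

/-- the vector with the entries `ψ (g ^ j)` -/
noncomputable def fl (j : ZMod d) : ℂ := ψ (E j : K) / (Real.sqrt d : ℂ)

/-- perturbed vector -/
noncomputable def pf (j : ZMod d) : ℂ :=
  fl E ψ j + (((bt d : ℝ) : ℂ) * dl j + ((bt d : ℝ) : ℂ) * ct j)

variable {E ψ}

omit [DecidableEq K] in
theorem norm_fl (j : ZMod d) : ‖fl E ψ j‖ = 1 / Real.sqrt d := by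
  unfold fl
  rw [norm_div, norm_psi, Complex.norm_real, Real.norm_eq_abs, abs_of_pos sqrt_pos']

omit [DecidableEq K] in
theorem fl_unit : ∑ j, ‖fl E ψ j‖ ^ 2 = 1 := by
  have hd : (0 : ℝ) < d := by exact_mod_cast Nat.pos_of_ne_zero (NeZero.ne d)
  rw [Finset.sum_congr rfl fun j _ => by rw [norm_fl j], Finset.sum_const, Finset.card_univ,
    ZMod.card, nsmul_eq_mul, div_pow, Real.sq_sqrt hd.le]
  field_simp

omit [DecidableEq K] in
theorem fl_ov (hadd : ∀ x y, E (x + y) = E x * E y) (a b : ZMod d) :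
    ov (fl E ψ) a b = 1 / (d : ℂ) * S E ψ (1 - (E a : K)) b := by
  unfold ov S
  rw [Finset.mul_sum]
  refine Finset.sum_congr rfl fun j _ => ?_
  unfold fl
  rw [map_div₀, conj_psi, Complex.conj_ofReal]
  have h2 := sqrt_sq (d := d)
  have h3 := sqrt_ne (d := d)
  have h4 : (d : ℂ) ≠ 0 := Nat.cast_ne_zero.2 (NeZero.ne d)
  have h5 : ψ (-(E (j + a) : K)) * ψ (E j : K) = ψ ((1 - (E a : K)) * (E j : K)) := by
    rw [← AddChar.map_add_eq_mul, hadd, Units.val_mul]
    congr 1
    ring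
  calc ψ (-(E (j + a) : K)) / (Real.sqrt d : ℂ) * (e (b * j) * (ψ (E j : K) / (Real.sqrt d : ℂ)))
      = (ψ (-(E (j + a) : K)) * ψ (E j : K)) * e (b * j) /
        ((Real.sqrt d : ℂ) * (Real.sqrt d : ℂ)) := by field_simp
    _ = _ := by rw [h2, h5]; ring

omit [DecidableEq K] in
theorem fl_ct (hadd : ∀ x y, E (x + y) = E x * E y) (a b : ZMod d) :
    ov2 (fl E ψ) ct a b = 1 / (d : ℂ) * S E ψ (-(E a : K)) b := by
  rw [ov2_ct_right]
  unfold S
  have h2 := sqrt_sq (d := d)
  have h3 := sqrt_ne (d := d)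
  have h6 : ∀ j : ZMod d, conj (fl E ψ (j + a)) * e (b * j) =
      1 / (Real.sqrt d : ℂ) * (ψ (-(E a : K) * (E j : K)) * e (b * j)) := by
    intro j
    unfold fl
    rw [map_div₀, conj_psi, Complex.conj_ofReal]
    have h5 : ψ (-(E (j + a) : K)) = ψ (-(E a : K) * (E j : K)) := by
      rw [hadd, Units.val_mul]
      congr 1
      ring
    rw [h5]
    ring
  rw [Finset.sum_congr rfl fun j _ => h6 j, ← Finset.mul_sum, ← mul_assoc]
  congr 1
  rw [← h2]
  field_simp

omit [DecidableEq K] [Fintype K] in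
theorem ct_fl (a b : ZMod d) : ov2 ct (fl E ψ) a b = 1 / (d : ℂ) * S E ψ 1 b := by
  rw [ov2_ct_left]
  unfold S
  have h2 := sqrt_sq (d := d)
  have h3 := sqrt_ne (d := d)
  have h6 : ∀ j : ZMod d, e (b * j) * fl E ψ j =
      1 / (Real.sqrt d : ℂ) * (ψ (1 * (E j : K)) * e (b * j)) := by
    intro j
    unfold fl
    rw [one_mul]
    ring
  rw [Finset.sum_congr rfl fun j _ => h6 j, ← Finset.mul_sum, ← mul_assoc]
  congr 1
  rw [← h2]
  field_simp

/-- the cross terms -/
noncomputable def crs (E : ZMod d → Kˣ) (ψ : AddChar K ℂ) (a b : ZMod d) : ℂ :=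
  (bt d : ℂ) * (conj (fl E ψ a) + e (b * (-a)) * fl E ψ (-a)) +
    (bt d : ℂ) * (1 / (d : ℂ) * S E ψ (-(E a : K)) b + 1 / (d : ℂ) * S E ψ 1 b) +
      (bt d : ℂ) ^ 2 * (e (b * (-a)) * ct (-a) + conj (ct a))

omit [DecidableEq K] in
theorem pf_ov (hadd : ∀ x y, E (x + y) = E x * E y) (a b : ZMod d) :
    ov (pf E ψ) a b = ov (fl E ψ) a b + (bt d : ℂ) ^ 2 * (if a = 0 then 1 else 0) +
      (bt d : ℂ) ^ 2 * (if b = 0 then 1 else 0) + crs E ψ a b := by
  rw [← ov2_self]
  unfold pf crs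
  rw [ov2_add_left, ov2_add_left, ov2_add_right, ov2_add_right, ov2_add_right, ov2_add_right,
    ov2_add_right, ov2_add_right]
  simp only [ov2_smul_left, ov2_smul_right]
  rw [ov2_dl_dl, ov2_ct_ct, ov2_dl_left, ov2_dl_left, ov2_dl_right, ov2_dl_right, ov2_self,
    fl_ct hadd, ct_fl]
  ring

theorem norm_crs (hE : Function.Bijective E) (hadd : ∀ x y, E (x + y) = E x * E y)
    (hψ : ψ.IsPrimitive) (a b : ZMod d) : ‖crs E ψ a b‖ ≤ 7 * bt d / Real.sqrt d := by
  have hd : (0 : ℝ) < d := by exact_mod_cast Nat.pos_of_ne_zero (NeZero.ne d)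
  have hd1 : (1 : ℝ) ≤ d := by exact_mod_cast Nat.one_le_iff_ne_zero.2 (NeZero.ne d)
  have hs := sqrt_pos' (d := d)
  have hb0 := bt_pos (d := d)
  have hb1 := bt_le_one (d := d)
  have hsq : Real.sqrt d ^ 2 = d := Real.sq_sqrt hd.le
  have hS : ∀ c : K, c ≠ 0 → ‖1 / (d : ℂ) * S E ψ c b‖ ≤ (3 / 2) / Real.sqrt d := by
    intro c hc
    rw [norm_mul, norm_div, norm_one, Complex.norm_natCast]
    have h1 : Real.sqrt (d + 1) ≤ 3 / 2 * Real.sqrt d := by
      rw [Real.sqrt_le_left (by positivity)]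
      rw [mul_pow, hsq]
      nlinarith
    calc 1 / (d : ℝ) * ‖S E ψ c b‖ ≤ 1 / (d : ℝ) * (3 / 2 * Real.sqrt d) :=
          mul_le_mul_of_nonneg_left ((norm_S hE hadd hψ hc b).trans h1) (by positivity)
      _ = _ := by
        rw [eq_div_iff hs.ne']
        have h2 : 1 / (d : ℝ) * (3 / 2 * Real.sqrt d) * Real.sqrt d =
          3 / 2 * Real.sqrt d ^ 2 / d := by ring
        rw [h2, hsq]
        field_simp
  have hE0 : ∀ a : ZMod d, (E a : K) ≠ 0 := fun a => Units.ne_zero _
  unfold crs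
  have h1 : ‖(bt d : ℂ) * (conj (fl E ψ a) + e (b * (-a)) * fl E ψ (-a))‖ ≤
      bt d * (1 / Real.sqrt d + 1 / Real.sqrt d) := by
    rw [norm_mul, Complex.norm_real, Real.norm_eq_abs, abs_of_pos hb0]
    refine mul_le_mul_of_nonneg_left ((norm_add_le _ _).trans ?_) hb0.le
    rw [norm_mul, norm_e, one_mul, norm_conj', norm_fl, norm_fl]
  have h2 : ‖(bt d : ℂ) * (1 / (d : ℂ) * S E ψ (-(E a : K)) b + 1 / (d : ℂ) * S E ψ 1 b)‖ ≤
      bt d * ((3 / 2) / Real.sqrt d + (3 / 2) / Real.sqrt d) := by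
    rw [norm_mul, Complex.norm_real, Real.norm_eq_abs, abs_of_pos hb0]
    exact mul_le_mul_of_nonneg_left ((norm_add_le _ _).trans
      (add_le_add (hS _ (neg_ne_zero.2 (hE0 a))) (hS _ one_ne_zero))) hb0.le
  have h3 : ‖(bt d : ℂ) ^ 2 * (e (b * (-a)) * ct (-a) + conj (ct a))‖ ≤
      bt d ^ 2 * (1 / Real.sqrt d + 1 / Real.sqrt d) := by
    rw [norm_mul, norm_pow, Complex.norm_real, Real.norm_eq_abs, sq_abs]
    refine mul_le_mul_of_nonneg_left ((norm_add_le _ _).trans ?_) (by positivity)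
    rw [norm_mul, norm_e, one_mul, norm_conj', norm_ct, norm_ct]
  refine (norm_add_le _ _).trans ((add_le_add ((norm_add_le _ _).trans (add_le_add h1 h2))
    h3).trans ?_)
  have h4 : bt d ^ 2 ≤ bt d := by nlinarith
  have h5 : bt d ^ 2 * (1 / Real.sqrt d + 1 / Real.sqrt d) ≤
      bt d * (1 / Real.sqrt d + 1 / Real.sqrt d) := mul_le_mul_of_nonneg_right h4 (by positivity)
  calc bt d * (1 / Real.sqrt d + 1 / Real.sqrt d) +
        bt d * ((3 / 2) / Real.sqrt d + (3 / 2) / Real.sqrt d) +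
        bt d ^ 2 * (1 / Real.sqrt d + 1 / Real.sqrt d)
      ≤ bt d * (1 / Real.sqrt d + 1 / Real.sqrt d) +
        bt d * ((3 / 2) / Real.sqrt d + (3 / 2) / Real.sqrt d) +
        bt d * (1 / Real.sqrt d + 1 / Real.sqrt d) := by linarith
    _ = 7 * bt d / Real.sqrt d := by ring

theorem field_case (hE : Function.Bijective E) (hadd : ∀ x y, E (x + y) = E x * E y)
    (hψ : ψ.IsPrimitive) :
    ∃ φ : ZMod d → ℂ, ∑ j, ‖φ j‖ ^ 2 = 1 ∧ ∀ a b : ZMod d, (a, b) ≠ (0, 0) →
      |((d : ℝ) + 1) * ‖ov φ a b‖ ^ 2 - 1| ≤ 161 * bt d := by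
  have hd : (0 : ℝ) < d := by exact_mod_cast Nat.pos_of_ne_zero (NeZero.ne d)
  have hd1 : (1 : ℝ) ≤ d := by exact_mod_cast Nat.one_le_iff_ne_zero.2 (NeZero.ne d)
  have hs := sqrt_pos' (d := d)
  have hs1 := one_le_sqrt (d := d)
  have hb0 := bt_pos (d := d)
  have hb1 := bt_le_one (d := d)
  have hb2 := bt_sq (d := d)
  have hsq : Real.sqrt d ^ 2 = d := Real.sq_sqrt hd.le
  have hE0 : E 0 = 1 := by
    have := hadd 0 0
    rw [add_zero] at this
    exact mul_eq_left.1 this.symm
  have h4 : bt d ^ 2 ≤ bt d := by nlinarith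
  have hnorm : ∑ j, ‖pf E ψ j‖ ^ 2 = 1 + 2 * bt d ^ 2 + 2 * bt d * (fl E ψ 0).re -
      2 * bt d / d + 2 * bt d ^ 2 / Real.sqrt d := by
    have h1 := ov_zero_zero (pf E ψ)
    rw [pf_ov hadd, ov_zero_zero, fl_unit, if_pos rfl] at h1
    unfold crs at h1
    rw [neg_zero, mul_zero, e_zero, hE0, S_zero hE hψ (by simp), S_zero hE hψ one_ne_zero] at h1
    have h2 := congrArg Complex.re h1
    have h3 : ct (d := d) 0 = ((1 / Real.sqrt d : ℝ) : ℂ) := by
      unfold ct
      push_cast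
      rfl
    rw [h3, Complex.conj_ofReal] at h2
    have h5 : (((1 : ℝ) : ℂ) + (bt d : ℂ) ^ 2 * 1 + (bt d : ℂ) ^ 2 * 1 +
        ((bt d : ℂ) * (conj (fl E ψ 0) + 1 * fl E ψ 0) +
          (bt d : ℂ) * (1 / (d : ℂ) * -1 + 1 / (d : ℂ) * -1) +
          (bt d : ℂ) ^ 2 * (1 * ((1 / Real.sqrt d : ℝ) : ℂ) + ((1 / Real.sqrt d : ℝ) : ℂ)))) =
        ((1 + 2 * bt d ^ 2 - 2 * bt d / d + 2 * bt d ^ 2 / Real.sqrt d : ℝ) : ℂ) +
          (bt d : ℂ) * (conj (fl E ψ 0) + fl E ψ 0) := by
      push_cast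
      ring
    rw [h5, Complex.add_re, Complex.ofReal_re, Complex.ofReal_re, Complex.re_ofReal_mul,
      Complex.add_re, Complex.conj_re] at h2
    rw [← h2]
    ring
  have hre : |(fl E ψ 0).re| ≤ 1 / Real.sqrt d := by
    rw [← norm_fl (E := E) (ψ := ψ) 0]
    exact Complex.abs_re_le_norm _
  obtain ⟨hre1, hre2⟩ := abs_le.1 hre
  have hbs : 1 / (d : ℝ) = (bt d ^ 2) ^ 2 := by
    rw [hb2, div_pow, one_pow, hsq]
  have hbd : 2 * bt d / d = 2 * bt d * (bt d ^ 2) ^ 2 := by
    rw [← hbs]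
    ring
  have hbe : 2 * bt d ^ 2 / Real.sqrt d = 2 * bt d ^ 2 * bt d ^ 2 := by
    rw [hb2]
    ring
  rw [← hb2] at hre1 hre2
  have key : ∀ (a b : ZMod d) (z : ℂ), |Real.sqrt d * ‖z‖ - 1| ≤ bt d →
      ov (pf E ψ) a b = z + crs E ψ a b →
      |Real.sqrt d * ‖ov (pf E ψ) a b‖ - 1| ≤ 8 * bt d := by
    intro a b z hz ho
    have h1 : |‖ov (pf E ψ) a b‖ - ‖z‖| ≤ 7 * bt d / Real.sqrt d := by
      refine (abs_norm_sub_norm_le _ _).trans ?_
      rw [ho, add_sub_cancel_left]
      exact norm_crs hE hadd hψ a b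
    have h2 : Real.sqrt d * ‖ov (pf E ψ) a b‖ - 1 =
        Real.sqrt d * (‖ov (pf E ψ) a b‖ - ‖z‖) + (Real.sqrt d * ‖z‖ - 1) := by ring
    rw [h2]
    refine (abs_add_le _ _).trans ?_
    rw [abs_mul, abs_of_pos hs]
    have h3 : Real.sqrt d * |‖ov (pf E ψ) a b‖ - ‖z‖| ≤ 7 * bt d := by
      calc Real.sqrt d * |‖ov (pf E ψ) a b‖ - ‖z‖|
          ≤ Real.sqrt d * (7 * bt d / Real.sqrt d) := mul_le_mul_of_nonneg_left h1 hs.le
        _ = 7 * bt d := by field_simp
    linarith
  have hE1 : ∀ a : ZMod d, a ≠ 0 → 1 - (E a : K) ≠ 0 := by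
    intro a ha h
    apply ha
    apply hE.1
    rw [hE0]
    exact Units.ext (by simpa using (sub_eq_zero.1 h).symm)
  have := final_step (pf E ψ) 8 (bt d) (by norm_num) hb0.le hb1 inv_le_bt (by
      rw [hnorm, hbd, hbe]
      have h1 : -(2 * bt d * bt d ^ 2) ≤ 2 * bt d * (fl E ψ 0).re := by nlinarith
      have h2 : 0 ≤ bt d ^ 2 * (1 - bt d) := mul_nonneg (sq_nonneg _) (by linarith)
      have h3 : 0 ≤ (bt d ^ 2) ^ 2 * (1 - bt d) := mul_nonneg (sq_nonneg _) (by linarith)
      nlinarith) (by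
      rw [hnorm, hbd, hbe]
      have h1 : 2 * bt d * (fl E ψ 0).re ≤ 2 * bt d * bt d ^ 2 := by nlinarith
      have h2 : bt d ^ 2 ≤ 1 := by nlinarith
      have h3 : 0 ≤ 2 * bt d * (bt d ^ 2) ^ 2 := by positivity
      have h5 : bt d * bt d ^ 2 ≤ bt d := by nlinarith
      have h6 : bt d ^ 2 * bt d ^ 2 ≤ bt d := by nlinarith
      nlinarith) (by
      intro a b hab
      by_cases ha : a = 0
      · have hb : b ≠ 0 := fun h => hab (by rw [ha, h])
        refine key a b ((bt d : ℂ) ^ 2) ?_ ?_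
        · rw [norm_pow, Complex.norm_real, Real.norm_eq_abs, sq_abs, hb2]
          have : Real.sqrt d * (1 / Real.sqrt d) - 1 = 0 := by
            field_simp
            ring
          rw [this, abs_zero]
          exact hb0.le
        · have h0 : ov (fl E ψ) a b = 0 := by
            rw [fl_ov hadd, ha, hE0]
            unfold S
            have h1 : ∑ j : ZMod d, ψ ((1 - ((1 : Kˣ) : K)) * (E j : K)) * e (b * j) =
                ∑ j : ZMod d, e (j * b) := by
              refine Finset.sum_congr rfl fun j _ => ?_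
              rw [Units.val_one, sub_self, zero_mul, AddChar.map_zero_eq_one, one_mul, mul_comm]
            rw [h1, sum_e, if_neg hb, mul_zero]
          rw [pf_ov hadd, h0, if_pos ha, if_neg hb]
          ring
      · by_cases hb : b = 0
        · refine key a b (ov (fl E ψ) a b + (bt d : ℂ) ^ 2) ?_ ?_
          · have h0 : ov (fl E ψ) a b = ((-(1 / d) : ℝ) : ℂ) := by
              rw [fl_ov hadd, hb, S_zero hE hψ (hE1 a ha)]
              push_cast
              ring
            have h1 : ov (fl E ψ) a b + (bt d : ℂ) ^ 2 =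
                ((1 / Real.sqrt d - 1 / d : ℝ) : ℂ) := by
              rw [h0, ← hb2]
              push_cast
              ring
            rw [h1, Complex.norm_real, Real.norm_eq_abs]
            have h2 : 0 ≤ 1 / Real.sqrt d - 1 / d := by
              rw [← hb2, hbs]
              nlinarith [sq_nonneg (bt d)]
            rw [abs_of_nonneg h2]
            have h3 : Real.sqrt d * (1 / Real.sqrt d - 1 / d) - 1 = -(1 / Real.sqrt d) := by
              have h5 : Real.sqrt d * (1 / d) = 1 / Real.sqrt d := by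
                rw [eq_div_iff hs.ne']
                have h6 : Real.sqrt d * (1 / (d : ℝ)) * Real.sqrt d = Real.sqrt d ^ 2 / d := by ring
                rw [h6, hsq]
                field_simp
              have h7 : Real.sqrt d * (1 / Real.sqrt d) = 1 := by field_simp
              rw [mul_sub, h5, h7]
              ring
            rw [h3, abs_neg, ← hb2, abs_of_nonneg (by positivity)]
            exact h4
          · rw [pf_ov hadd, if_neg ha, if_pos hb]
            ring
        · refine key a b (ov (fl E ψ) a b) ?_ ?_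
          · have h1 : ‖ov (fl E ψ) a b‖ = Real.sqrt (d + 1) / d := by
              rw [fl_ov hadd, norm_mul, norm_div, norm_one, Complex.norm_natCast,
                ← Real.sqrt_sq (norm_nonneg (S E ψ (1 - (E a : K)) b)),
                S_sq hE hadd hψ (hE1 a ha) hb]
              ring
            rw [h1]
            have h2 : Real.sqrt d * (Real.sqrt (d + 1) / d) = Real.sqrt (d + 1) / Real.sqrt d := by
              rw [eq_div_iff hs.ne']
              have h6 : Real.sqrt d * (Real.sqrt (d + 1) / (d : ℝ)) * Real.sqrt d =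
                Real.sqrt (d + 1) * Real.sqrt d ^ 2 / d := by ring
              rw [h6, hsq]
              field_simp
            rw [h2]
            have h3 : Real.sqrt d ≤ Real.sqrt (d + 1) := Real.sqrt_le_sqrt (by linarith)
            have h5 : Real.sqrt (d + 1) ≤ Real.sqrt d + 1 / Real.sqrt d := by
              rw [Real.sqrt_le_left (by positivity), add_sq, hsq]
              have h7 : 2 * Real.sqrt d * (1 / Real.sqrt d) = 2 := by field_simp
              rw [h7]
              have : 0 ≤ (1 / Real.sqrt d) ^ 2 := by positivity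
              linarith
            have h8 : Real.sqrt (d + 1) / Real.sqrt d - 1 =
                (Real.sqrt (d + 1) - Real.sqrt d) / Real.sqrt d := by
              field_simp
            rw [h8, abs_of_nonneg (by
              apply div_nonneg _ hs.le
              linarith), div_le_iff₀ hs]
            have h9 : 1 / Real.sqrt d ≤ bt d * Real.sqrt d := by
              rw [← hb2]
              nlinarith
            linarith
          · rw [pf_ov hadd, if_neg ha, if_neg hb]
            ring)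
  obtain ⟨φ, h1, h2⟩ := this
  refine ⟨φ, h1, fun a b hab => (h2 a b hab).trans ?_⟩
  norm_num

end field

/-- dimensions `q - 1` -/
theorem prime_pow_case {d : ℕ} [NeZero d] (hq : IsPrimePow (d + 1)) :
    ∃ φ : ZMod d → ℂ, ∑ j, ‖φ j‖ ^ 2 = 1 ∧ ∀ a b : ZMod d, (a, b) ≠ (0, 0) →
      |((d : ℝ) + 1) * ‖ov φ a b‖ ^ 2 - 1| ≤ 161 * bt d := by
  classical
  obtain ⟨p, n, hp, hn, hpn⟩ := (isPrimePow_nat_iff (d + 1)).1 hq
  have : Fact p.Prime := ⟨hp⟩
  have : Fintype (GaloisField p n) := Fintype.ofFinite _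
  have hcard : Nat.card (GaloisField p n)ˣ = d := by
    rw [Nat.card_units, GaloisField.card p n hn.ne', hpn]
    rfl
  subst hcard
  let φ := zmodCyclicMulEquiv (inferInstance : IsCyclic (GaloisField p n)ˣ)
  exact field_case (K := GaloisField p n) (E := fun j => φ (Multiplicative.ofAdd j))
    (ψ := AddChar.FiniteField.primitiveChar_to_Complex (GaloisField p n))
    (φ.bijective.comp Multiplicative.ofAdd.bijective)
    (fun x y => by rw [ofAdd_add, map_mul])
    (AddChar.FiniteField.primitiveChar_to_Complex_isPrimitive _)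

end Pool.Agent.Zk59.Sic
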